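import Pool.Agent.Run7.h47.SD.Iface2
import Pool.Agent.Run7.h361.SD.MOMG

/-!
# Project SD (helper47), second stage, piece MGT: moments of the resolvent for the shifted Gaussian law
-/

set_option autoImplicit false

namespace Pool.Agent.Run7.h300.SD

open MeasureTheory ProbabilityTheory Pool.Agent.Run7.h47.SD Pool.Agent.Run7.h47.SD.MOMGp

noncomputable section

theorem mean_char' (s e t : ℝ) : ∫ x : ℝ, Complex.exp (-((Complex.I * ((s * x - e : ℝ) : ℂ)) * t))
    ∂(gaussianReal 0 1) =
      Complex.exp (Complex.I * e * t) * ((Real.exp (-(s ^ 2 * t ^ 2 / 2)) : ℝ) : ℂ) := by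
  rw [← mean_char s t, ← integral_const_mul]
  refine integral_congr_ae (Filter.Eventually.of_forall fun x => ?_)
  simp only
  rw [← Complex.exp_add]
  congr 1
  push_cast
  ring

theorem mean_dd' (s e : ℝ) (n : ℕ) : ‖∫ x, dd (s * x - e) ^ (n + 1) ∂(gaussianReal 0 1)‖ ≤
    JJ n s / n.factorial := by
  have h1 : ∀ x : ℝ, dd (s * x - e) ^ (n + 1) = Complex.I ^ (n + 1) / (n.factorial : ℂ) *
      ∫ t in Set.Ioi (0 : ℝ),
        (t : ℂ) ^ n * Complex.exp (-((1 + Complex.I * ((s * x - e : ℝ) : ℂ)) * t)) :=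
    fun x => dd_eq (s * x - e) n
  have hint : Integrable (Function.uncurry fun (x : ℝ) (t : ℝ) =>
      (t : ℂ) ^ n * Complex.exp (-((1 + Complex.I * ((s * x - e : ℝ) : ℂ)) * t)))
      ((gaussianReal 0 1).prod (volume.restrict (Set.Ioi (0 : ℝ)))) := by
    have h2 : Integrable (fun p : ℝ × ℝ => p.2 ^ n * Real.exp (-p.2))
        ((gaussianReal 0 1).prod (volume.restrict (Set.Ioi (0 : ℝ)))) :=
      (integrable_pow_exp n).comp_snd (gaussianReal 0 1)
    refine h2.norm.mono' ?_ (Filter.Eventually.of_forall fun p => ?_)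
    · refine Continuous.aestronglyMeasurable ?_
      unfold Function.uncurry
      fun_prop
    · simp only [Function.uncurry]
      rw [norm_mul, norm_mul, norm_pow, norm_pow, Complex.norm_exp, Complex.norm_real]
      have : (-((1 + Complex.I * ((s * p.1 - e : ℝ) : ℂ)) * (p.2 : ℂ))).re = -p.2 := by
        simp
      rw [this, Real.norm_of_nonneg (Real.exp_pos _).le]
  have h3 : ∀ t : ℝ, ∫ x : ℝ, (t : ℂ) ^ n *
      Complex.exp (-((1 + Complex.I * ((s * x - e : ℝ) : ℂ)) * t)) ∂(gaussianReal 0 1) =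
      Complex.exp (Complex.I * e * t) * ((t ^ n * Real.exp (-t - s ^ 2 * t ^ 2 / 2) : ℝ) : ℂ) := by
    intro t
    have h4 : ∀ x : ℝ, (t : ℂ) ^ n *
        Complex.exp (-((1 + Complex.I * ((s * x - e : ℝ) : ℂ)) * t)) =
        ((t : ℂ) ^ n * Complex.exp (-(t : ℂ))) *
          Complex.exp (-((Complex.I * ((s * x - e : ℝ) : ℂ)) * t)) := by
      intro x
      rw [mul_assoc, ← Complex.exp_add]
      congr 2
      ring
    rw [integral_congr_ae (Filter.Eventually.of_forall h4), integral_const_mul, mean_char']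
    push_cast
    rw [sub_eq_add_neg (-(t : ℂ)), Complex.exp_add]
    ring
  rw [integral_congr_ae (Filter.Eventually.of_forall h1), integral_const_mul,
    integral_integral_swap hint, integral_congr_ae (Filter.Eventually.of_forall h3), norm_mul,
    norm_div, norm_pow, Complex.norm_I, one_pow, Complex.norm_natCast, one_div, inv_mul_eq_div]
  refine div_le_div_of_nonneg_right ?_ (Nat.cast_nonneg _)
  unfold JJ
  refine norm_integral_le_of_norm_le (JJ_integrable n s) ?_
  refine (ae_restrict_iff' measurableSet_Ioi).2 (Filter.Eventually.of_forall fun t ht => ?_)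
  have ht' : (0 : ℝ) < t := ht
  rw [norm_mul, Complex.norm_real, Complex.norm_exp]
  have : (Complex.I * (e : ℂ) * (t : ℂ)).re = 0 := by simp
  rw [this, Real.exp_zero, one_mul, Real.norm_of_nonneg (by positivity)]

theorem dd_im (v : ℝ) : (dd v).im = 1 / (1 + v ^ 2) := by
  have h : (v : ℂ) - Complex.I = ⟨v, -1⟩ := by
    apply Complex.ext <;> simp
  unfold dd
  rw [h, one_div, Complex.inv_im, Complex.normSq_apply]
  simp only [neg_neg]
  congr 1
  ring

theorem dd_norm_le (v : ℝ) : ‖dd v‖ ≤ 1 := by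
  unfold dd
  rw [norm_div, norm_one]
  refine div_le_one_of_le₀ ?_ (norm_nonneg _)
  have h1 : |((v : ℂ) - Complex.I).im| ≤ ‖(v : ℂ) - Complex.I‖ := Complex.abs_im_le_norm _
  simpa using h1

theorem pdf_low {T x : ℝ} (hx : |x| ≤ T + 1) :
    Real.exp (-((T + 1) ^ 2 / 2)) / √(2 * Real.pi) ≤ gaussianPDFReal 0 1 x := by
  unfold gaussianPDFReal
  have h1 : x ^ 2 ≤ (T + 1) ^ 2 := by
    rw [← sq_abs x]
    exact pow_le_pow_left₀ (abs_nonneg _) hx 2
  have h2 : Real.exp (-((T + 1) ^ 2 / 2)) ≤ Real.exp (-(x - 0) ^ 2 / (2 * ((1 : NNReal) : ℝ))) := by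
    refine Real.exp_le_exp.2 ?_
    rw [sub_zero, NNReal.coe_one, mul_one]
    linarith
  rw [NNReal.coe_one, mul_one, div_eq_inv_mul]
  exact mul_le_mul_of_nonneg_left (by simpa using h2) (by positivity)

theorem gauss_low {T sg e : ℝ} (hs : 1 ≤ sg) (he : |e| ≤ T * sg) :
    2 / sg * (Real.exp (-((T + 1) ^ 2 / 2)) / √(2 * Real.pi)) ≤
      (gaussianReal 0 1).real (Set.Icc ((e - 1) / sg) ((e + 1) / sg)) := by
  have hs0 : 0 < sg := by linarith
  rw [Measure.real, gaussianReal_apply_eq_integral _ one_ne_zero, ENNReal.toReal_ofReal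
    (setIntegral_nonneg measurableSet_Icc fun x _ => gaussianPDFReal_nonneg 0 1 x)]
  have h1 : ∫ _x in Set.Icc ((e - 1) / sg) ((e + 1) / sg),
      Real.exp (-((T + 1) ^ 2 / 2)) / √(2 * Real.pi) =
      2 / sg * (Real.exp (-((T + 1) ^ 2 / 2)) / √(2 * Real.pi)) := by
    rw [setIntegral_const, Measure.real, Real.volume_Icc]
    have : (e + 1) / sg - (e - 1) / sg = 2 / sg := by
      field_simp
      ring
    rw [this, ENNReal.toReal_ofReal (by positivity), smul_eq_mul]
  rw [← h1]
  refine setIntegral_mono_on ?_ (integrable_gaussianPDFReal 0 1).integrableOn measurableSet_Icc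
    fun x hx => pdf_low ?_
  · exact integrableOn_const (by simp) (by simp)
  · have h2 := abs_le.1 he
    have h3 := hx.1
    have h4 := hx.2
    rw [div_le_iff₀ hs0] at h3
    rw [le_div_iff₀ hs0] at h4
    rw [abs_le]
    constructor
    · by_contra hc
      push Not at hc
      nlinarith
    · by_contra hc
      push Not at hc
      nlinarith

theorem t_MGT : S_MGT := by
  intro T hT
  have hpi : (1 : ℝ) ≤ √(2 * Real.pi) := by
    rw [Real.one_le_sqrt]
    linarith [Real.pi_gt_three]
  have hexp : (1 : ℝ) ≤ Real.exp ((T + 1) ^ 2 / 2) := Real.one_le_exp (by positivity)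
  have hC1 : (2 : ℝ) ≤ 2 * √(2 * Real.pi) * Real.exp ((T + 1) ^ 2 / 2) := by
    nlinarith
  refine ⟨2, 2 * √(2 * Real.pi) * Real.exp ((T + 1) ^ 2 / 2), by norm_num, hC1,
    fun sg e hsg he => ?_⟩
  have hs0 : 0 < sg := by linarith
  have hmeas : AEMeasurable (fun x : ℝ => sg * x - e) (gaussianReal 0 1) :=
    ((measurable_const_mul sg).sub_const e).aemeasurable
  have hmap : ∀ m : ℕ, ∫ v, dd v ^ m ∂((gaussianReal 0 1).map fun x => sg * x - e) =
      ∫ x, dd (sg * x - e) ^ m ∂(gaussianReal 0 1) := fun m =>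
    integral_map hmeas (dd_measurable.pow_const m).aestronglyMeasurable
  refine ⟨by positivity, hC1, ?_, ?_⟩
  · intro m hm
    obtain ⟨n, rfl⟩ : ∃ n, m = n + 1 := ⟨m - 1, by omega⟩
    rw [hmap]
    exact (mean_dd' sg e n).trans (JJ_le n hsg)
  · have h1 : ∫ v, dd v ∂((gaussianReal 0 1).map fun x => sg * x - e) =
        ∫ x, dd (sg * x - e) ∂(gaussianReal 0 1) := by
      simpa using hmap 1
    have hdm : Measurable fun x : ℝ => dd (sg * x - e) :=
      dd_measurable.comp ((measurable_const_mul sg).sub_const e)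
    have hint : Integrable (fun x : ℝ => dd (sg * x - e)) (gaussianReal 0 1) :=
      Integrable.of_bound hdm.aestronglyMeasurable 1
        (Filter.Eventually.of_forall fun x => dd_norm_le _)
    rw [h1]
    have h2 : (∫ x, dd (sg * x - e) ∂(gaussianReal 0 1)).im =
        ∫ x, (dd (sg * x - e)).im ∂(gaussianReal 0 1) := (integral_im hint).symm
    rw [h2]
    have hS : MeasurableSet (Set.Icc ((e - 1) / sg) ((e + 1) / sg)) := measurableSet_Icc
    have h3 : ∫ x, (Set.Icc ((e - 1) / sg) ((e + 1) / sg)).indicator (fun _ => (1 / 2 : ℝ)) x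
        ∂(gaussianReal 0 1) ≤ ∫ x, (dd (sg * x - e)).im ∂(gaussianReal 0 1) := by
      refine integral_mono ((integrable_const _).indicator hS) hint.im fun x => ?_
      simp only
      rw [dd_im]
      by_cases hx : x ∈ Set.Icc ((e - 1) / sg) ((e + 1) / sg)
      · rw [Set.indicator_of_mem hx]
        have h4 := hx.1
        have h5 := hx.2
        rw [div_le_iff₀ hs0] at h4
        rw [le_div_iff₀ hs0] at h5
        have h6 : (sg * x - e) ^ 2 ≤ 1 := by nlinarith
        exact one_div_le_one_div_of_le (by positivity) (by linarith)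
      · rw [Set.indicator_of_notMem hx]
        positivity
    refine le_trans ?_ h3
    rw [integral_indicator_const _ hS, smul_eq_mul]
    have h7 := gauss_low hsg he
    refine le_trans (le_of_eq ?_) (mul_le_mul_of_nonneg_right h7 (by norm_num))
    rw [Real.exp_neg]
    have h8 := (Real.exp_pos ((T + 1) ^ 2 / 2)).ne'
    have h9 : √(2 * Real.pi) ≠ 0 := by positivity
    field_simp

end

end Pool.Agent.Run7.h300.SD
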